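import Mathlib
import Pool.Agent.helper11.VQ.Spec3c

/-!
# RND (project VQ, MP_07c750_an): rounding of the coefficients
-/

set_option autoImplicit false

open scoped MatrixGroups ContDiff Topology UpperHalfPlane ComplexConjugate ENNReal
open UpperHalfPlane MeasureTheory Filter Set

namespace Pool.Agent.VQ

open Pool.Agent.RS
open Pool.Agent.RPQ (CEig mean VV IsOp IsMul OProj wrd PJ nst mks MO Net Cl CkB PN upd Eqd)

noncomputable section

/-- the indices -/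
def RND_S (J : ℕ → ℕ) (K : ℕ) : Set (ℕ × ℕ) := {q | q.1 ≤ 4 * K ∧ q.1 ≠ K ∧ q.2 < J q.1}

theorem RND_fin (J : ℕ → ℕ) (K : ℕ) : (RND_S J K).Finite := by
  have h : RND_S J K ⊆ ⋃ k ∈ Set.Iic (4 * K), (Set.singleton k) ×ˢ (Set.Iio (J k)) := by
    rintro ⟨a, b⟩ ⟨h1, -, h3⟩
    simp only [Set.mem_iUnion, Set.mem_prod, Set.mem_Iio]
    exact ⟨a, h1, rfl, h3⟩
  exact Set.Finite.subset (Set.Finite.biUnion (Set.finite_Iic _) fun k _ =>
    Set.Finite.prod (Set.finite_singleton k) (Set.finite_Iio _)) h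

/-- truncation -/
def RND_c (x : ℝ) : ℝ := max (-1) (min 1 x)

theorem RND_c_le (x : ℝ) : |RND_c x| ≤ 1 := by
  unfold RND_c
  rw [abs_le]
  exact ⟨le_max_left _ _, max_le (by norm_num) (min_le_left _ _)⟩

theorem RND_c_id {x : ℝ} (h : |x| ≤ 1) : RND_c x = x := by
  rw [abs_le] at h
  unfold RND_c
  rw [min_eq_right h.2, max_eq_right h.1]

theorem RND_c_meas : Measurable RND_c := by
  unfold RND_c
  exact measurable_const.max (measurable_const.min measurable_id)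

theorem RND_round {M : ℕ} (hM : 1 ≤ M) {x : ℝ} (hx : |x| ≤ 1) :
    |RND_c ((⌊(M : ℝ) * x⌋ : ℤ) / (M : ℝ)) - x| ≤ 1 / M := by
  have hM0 : (0 : ℝ) < M := by exact_mod_cast hM
  have h1 : ((⌊(M : ℝ) * x⌋ : ℤ) : ℝ) ≤ M * x := Int.floor_le _
  have h2 : (M : ℝ) * x < (⌊(M : ℝ) * x⌋ : ℤ) + 1 := Int.lt_floor_add_one _
  have h3 : ((⌊(M : ℝ) * x⌋ : ℤ) : ℝ) / M ≤ x := by
    rw [div_le_iff₀ hM0]
    linarith
  have h4 : x - 1 / M ≤ ((⌊(M : ℝ) * x⌋ : ℤ) : ℝ) / M := by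
    rw [le_div_iff₀ hM0, sub_mul, one_div, inv_mul_cancel₀ hM0.ne']
    linarith
  rw [abs_le] at hx
  have h5 : RND_c ((⌊(M : ℝ) * x⌋ : ℤ) / (M : ℝ)) = max (-1) (((⌊(M : ℝ) * x⌋ : ℤ) : ℝ) / M) := by
    unfold RND_c
    rw [min_eq_right (h3.trans hx.2)]
  rw [h5, abs_le]
  have h6 : (0 : ℝ) < 1 / M := by positivity
  constructor
  · have := le_max_right (-1 : ℝ) (((⌊(M : ℝ) * x⌋ : ℤ) : ℝ) / M)
    linarith
  · have : max (-1 : ℝ) (((⌊(M : ℝ) * x⌋ : ℤ) : ℝ) / M) ≤ x := max_le hx.1 h3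
    linarith

open Classical in
theorem RND_proof : RND_stmt := by
  intro J K M hM
  have hfin : Finite (RND_S J K) := (RND_fin J K).to_subtype
  let r : (ℕ × ℕ → ℝ) → (RND_S J K → ℤ) := fun ζ q => ⌊(M : ℝ) * RND_c (ζ q.1)⌋
  let v : (RND_S J K → ℤ) → ℕ × ℕ → ℝ := fun b q =>
    if h : q ∈ RND_S J K then RND_c ((b ⟨q, h⟩ : ℤ) / (M : ℝ)) else 0
  refine ⟨RND_S J K → ℤ, inferInstance, r, v, ?_, ?_, ?_, ?_⟩
  · intro b
    have hr : Measurable r := by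
      refine measurable_pi_lambda _ fun q => ?_
      exact Int.measurable_floor.comp ((RND_c_meas.comp (measurable_pi_apply q.1)).const_mul (M : ℝ))
    exact hr (measurableSet_singleton b)
  · intro b q
    change |if h : q ∈ RND_S J K then RND_c ((b ⟨q, h⟩ : ℤ) / (M : ℝ)) else 0| ≤ 1
    split_ifs with h
    · exact RND_c_le _
    · simp
  · intro ζ ξ
    funext q
    change ⌊(M : ℝ) * RND_c (upd K (J K) (ζ, ξ) q.1)⌋ = ⌊(M : ℝ) * RND_c (ζ q.1)⌋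
    have h1 : upd K (J K) (ζ, ξ) q.1 = ζ q.1 := by
      unfold upd
      rw [dif_neg]
      intro h
      exact q.2.2.1 h.1
    rw [h1]
  · intro ζ hζ q h1 h2 h3
    have hq : q ∈ RND_S J K := ⟨h1, h2, h3⟩
    change |(if h : q ∈ RND_S J K then RND_c ((⌊(M : ℝ) * RND_c (ζ q)⌋ : ℤ) / (M : ℝ)) else 0) - ζ q| ≤ 1 / M
    rw [dif_pos hq, RND_c_id (hζ q)]
    exact RND_round hM (hζ q)

end

end Pool.Agent.VQ
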