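import Mathlib
import Pool.Agent.helper74.VQ.SpecE

/-!
# VI9 (project VQ, MP_07c750_an): the density of the big step kernel
-/

set_option autoImplicit false

open scoped MatrixGroups ContDiff Topology UpperHalfPlane ComplexConjugate ENNReal
open UpperHalfPlane MeasureTheory Filter Set

namespace Pool.Agent.VQ

open Pool.Agent.RS

noncomputable section

theorem VI9_pos {C : ℝ} {A : Prm} (h : Adm C A) (h1 : 1 ≤ C) : 0 < A.z ∧ 0 < A.z1 ∧ 0 < A.z2 ∧ A.e3 ≤ A.z2 := by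
  obtain ⟨he, hm, hz, hz1, hz2, hup, htu⟩ := h
  have h0 : 0 < C := by linarith
  have a1 : 0 < A.z := lt_of_lt_of_le (mul_pos h0 he) hz
  have a2 : 0 < A.z1 := lt_of_lt_of_le (mul_pos h0 a1) hz1
  have a3 : 0 < A.z2 := lt_of_lt_of_le (mul_pos h0 a2) hz2
  have b1 : A.e3 ≤ A.z := by nlinarith
  have b2 : A.z ≤ A.z1 := by nlinarith
  have b3 : A.z1 ≤ A.z2 := by nlinarith
  exact ⟨a1, a2, a3, b1.trans (b2.trans b3)⟩

theorem VI9_adm {C C' : ℝ} {A : Prm} (h : Adm C A) (hC : C' ≤ C) (h1 : 1 ≤ C) : Adm C' A := by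
  obtain ⟨a1, a2, a3, -⟩ := VI9_pos h h1
  obtain ⟨he, hm, hz, hz1, hz2, hup, htu⟩ := h
  exact ⟨he, hm, (mul_le_mul_of_nonneg_right hC he.le).trans hz, (mul_le_mul_of_nonneg_right hC a1.le).trans hz1,
    (mul_le_mul_of_nonneg_right hC a2.le).trans hz2, (mul_le_mul_of_nonneg_right hC (by positivity)).trans hup, htu⟩

theorem VI9_win {R : ℝ} (hR : 65536 ≤ R) : 3 / 2 * R ^ (-(1 / 4) : ℝ) ≤ 1 / 8 := by
  have h1 : R ^ (-(1 / 4) : ℝ) ≤ (65536 : ℝ) ^ (-(1 / 4) : ℝ) :=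
    Real.rpow_le_rpow_of_nonpos (by norm_num) hR (by norm_num)
  have h2 : (65536 : ℝ) ^ (-(1 / 4) : ℝ) = 1 / 16 := by
    have h3 : (65536 : ℝ) = (1 / 16 : ℝ) ^ (-4 : ℝ) := by
      rw [Real.rpow_neg (by norm_num)]
      norm_num
    rw [h3, ← Real.rpow_mul (by norm_num)]
    norm_num
  rw [h2] at h1
  linarith

/-- the determinant of the linear system -/
theorem VI9_det {M : Matrix (Fin 2) (Fin 2) ℂ} {L : ℝ} (h : ∀ i j, ‖M i j‖ ≤ L) : ‖M.det‖ ≤ 2 * L ^ 2 := by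
  rw [Matrix.det_fin_two]
  have hL : 0 ≤ L := (norm_nonneg _).trans (h 0 0)
  have h1 : ‖M 0 0 * M 1 1‖ ≤ L * L := by
    rw [norm_mul]
    exact mul_le_mul (h 0 0) (h 1 1) (norm_nonneg _) hL
  have h2 : ‖M 0 1 * M 1 0‖ ≤ L * L := by
    rw [norm_mul]
    exact mul_le_mul (h 0 1) (h 1 0) (norm_nonneg _) hL
  have h3 := norm_sub_le (M 0 0 * M 1 1) (M 0 1 * M 1 0)
  nlinarith

/-- growth of the determinant -/
theorem VI9_exp {Cb R τ e : ℝ} (hR : 1 ≤ R) (hτ : τ = e * Real.log R) (he : 0 ≤ e) (hCe : 2 * (Cb * e) ≤ 1 / 20) :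
    (Cb * Real.exp (Cb * |τ|)) ^ 2 ≤ Cb ^ 2 * R ^ (1 / 20 : ℝ) := by
  have h0 : 0 < R := by linarith
  have hl : 0 ≤ Real.log R := Real.log_nonneg hR
  have h1 : |τ| = e * Real.log R := by
    rw [hτ, abs_of_nonneg (mul_nonneg he hl)]
  have h2 : Real.exp (Cb * |τ|) ^ 2 = R ^ (2 * (Cb * e)) := by
    rw [← Real.exp_nat_mul, Real.rpow_def_of_pos h0, h1]
    congr 1
    push_cast
    ring
  rw [mul_pow, h2]
  exact mul_le_mul_of_nonneg_left (Real.rpow_le_rpow_of_exponent_le hR hCe) (sq_nonneg _)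

/-- the final estimate -/
theorem VI9_num {R Cb a d u : ℝ} (hR : 1 ≤ R) (hCb : 4 * Cb ^ 2 ≤ R ^ (3 / 20 : ℝ)) (hu0 : 0 ≤ u)
    (hu : u ≤ 8 * R ^ 2 * a + R ^ (19 / 10 : ℝ)) (ha : a ^ 2 * d = 1) (hd0 : 0 ≤ d) (hd : d ≤ 2 * (Cb ^ 2 * R ^ (1 / 20 : ℝ))) :
    u ^ 2 * d ≤ 129 * R ^ 4 := by
  have h0 : 0 < R := by linarith
  have h1 : u ^ 2 ≤ 2 * ((8 * R ^ 2 * a) ^ 2 + (R ^ (19 / 10 : ℝ)) ^ 2) := by
    have h2 : u ^ 2 ≤ (8 * R ^ 2 * a + R ^ (19 / 10 : ℝ)) ^ 2 := pow_le_pow_left₀ hu0 hu 2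
    nlinarith [sq_nonneg (8 * R ^ 2 * a - R ^ (19 / 10 : ℝ))]
  have h3 : (R ^ (19 / 10 : ℝ)) ^ 2 = R ^ (19 / 5 : ℝ) := by
    rw [← Real.rpow_natCast, ← Real.rpow_mul h0.le]
    norm_num
  rw [h3] at h1
  have h4 : 0 ≤ R ^ (19 / 5 : ℝ) := Real.rpow_nonneg h0.le _
  have h5 : R ^ (19 / 5 : ℝ) * (R ^ (1 / 20 : ℝ) * R ^ (3 / 20 : ℝ)) = R ^ 4 := by
    rw [← Real.rpow_natCast, ← Real.rpow_add h0, ← Real.rpow_add h0]
    norm_num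
  have h6 : R ^ (19 / 5 : ℝ) * d ≤ R ^ 4 / 2 := by
    have h7 : R ^ (19 / 5 : ℝ) * d ≤ R ^ (19 / 5 : ℝ) * (2 * (Cb ^ 2 * R ^ (1 / 20 : ℝ))) := mul_le_mul_of_nonneg_left hd h4
    have h8 : R ^ (19 / 5 : ℝ) * (2 * (Cb ^ 2 * R ^ (1 / 20 : ℝ))) = (R ^ (19 / 5 : ℝ) * R ^ (1 / 20 : ℝ)) * (4 * Cb ^ 2) / 2 := by ring
    have h9 : (R ^ (19 / 5 : ℝ) * R ^ (1 / 20 : ℝ)) * (4 * Cb ^ 2) ≤ (R ^ (19 / 5 : ℝ) * R ^ (1 / 20 : ℝ)) * R ^ (3 / 20 : ℝ) :=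
      mul_le_mul_of_nonneg_left hCb (mul_nonneg h4 (Real.rpow_nonneg h0.le _))
    have h10 : (R ^ (19 / 5 : ℝ) * R ^ (1 / 20 : ℝ)) * R ^ (3 / 20 : ℝ) = R ^ 4 := by rw [mul_assoc, h5]
    rw [h10] at h9
    linarith
  have h11 : u ^ 2 * d ≤ 2 * ((8 * R ^ 2 * a) ^ 2 + R ^ (19 / 5 : ℝ)) * d := mul_le_mul_of_nonneg_right h1 hd0
  have h12 : 2 * ((8 * R ^ 2 * a) ^ 2 + R ^ (19 / 5 : ℝ)) * d = 128 * R ^ 4 * (a ^ 2 * d) + 2 * (R ^ (19 / 5 : ℝ) * d) := by ring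
  rw [h12, ha] at h11
  linarith

theorem VI9_proof (hVAM : VAM_stmt) (hVYA : VYA_stmt) (hVYB : VYB_stmt) (hVUM : VUM_stmt) : VI9_stmt := by
  intro Γ ch _ hch
  obtain ⟨Ca, hCa, hA⟩ := hVAM
  obtain ⟨Cb, hCb, hB⟩ := hVYB
  obtain ⟨Cu, hCu, hU⟩ := hVUM
  refine ⟨1 / 10, Ca + Cu + 40 * Cb, by norm_num, by linarith, ?_⟩
  intro B A hAdm
  have hC1 : 1 ≤ Ca + Cu + 40 * Cb := by linarith
  obtain ⟨ζ2, Ra, -, -, -, hRa, hA1⟩ := hA ch B A hch (VI9_adm hAdm (by linarith) hC1)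
  obtain ⟨Ru, hRu, hU1⟩ := hU ch B A hch (VI9_adm hAdm (by linarith) hC1)
  obtain ⟨-, -, hz2, hez⟩ := VI9_pos hAdm hC1
  obtain ⟨he, hm, -, -, -, hup, -⟩ := hAdm
  set C : ℝ := Ca + Cu + 40 * Cb with hCdef
  have hCz : 0 < C * A.z2 := mul_pos (by linarith) hz2
  have hb1 : (1 : ℝ) ≤ 4 * Cb ^ 2 := by nlinarith
  have hpa : 0 ≤ (129 : ℝ) ^ ((C * A.z2)⁻¹) := Real.rpow_nonneg (by norm_num) _
  have hpb : 0 ≤ (4 * Cb ^ 2) ^ (20 / 3 : ℝ) := Real.rpow_nonneg (by linarith) _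
  refine ⟨(129 : ℝ) ^ ((C * A.z2)⁻¹) + (4 * Cb ^ 2) ^ (20 / 3 : ℝ) + 65536 + Ra + Ru, by linarith, ?_⟩
  intro R D hR hD p q hp
  have hR1 : 1 ≤ R := by linarith
  have hR0 : 0 < R := by linarith
  have hRz : (129 : ℝ) ≤ R ^ (C * A.z2) := by
    have h1 : ((129 : ℝ) ^ ((C * A.z2)⁻¹)) ^ (C * A.z2) ≤ R ^ (C * A.z2) :=
      Real.rpow_le_rpow hpa (by linarith) hCz.le
    rwa [← Real.rpow_mul (by norm_num), inv_mul_cancel₀ hCz.ne', Real.rpow_one] at h1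
  have hRb : 4 * Cb ^ 2 ≤ R ^ (3 / 20 : ℝ) := by
    have h1 : ((4 * Cb ^ 2) ^ (20 / 3 : ℝ)) ^ (3 / 20 : ℝ) ≤ R ^ (3 / 20 : ℝ) :=
      Real.rpow_le_rpow hpb (by linarith) (by norm_num)
    rw [← Real.rpow_mul (by linarith)] at h1
    rwa [show (20 / 3 : ℝ) * (3 / 20) = 1 by norm_num, Real.rpow_one] at h1
  have hfin : (129 : ℝ) * R ^ 4 ≤ R ^ (4 + C * A.z2) := by
    rw [Real.rpow_add hR0]
    have h1 : R ^ (4 : ℝ) = R ^ 4 := by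
      rw [← Real.rpow_natCast]
      norm_num
    rw [h1, mul_comm]
    exact mul_le_mul_of_nonneg_left hRz (by positivity)
  have hE : |p.2| ≤ 1 / 8 := by
    have h1 := VI9_win (R := R) (by linarith)
    have h2 : p.2 ∈ Icc (-(3 / 2 * R ^ (-(1 / 4) : ℝ))) (3 / 2 * R ^ (-(1 / 4) : ℝ)) := hp
    rw [abs_le]
    exact ⟨by linarith [h2.1], by linarith [h2.2]⟩
  by_cases hq : q ∈ GW 2 R
  · obtain ⟨k1, k2⟩ := hA1 R (1 / 10) Γ D p q (by linarith) hD le_rfl hp hq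
    obtain ⟨-, -, -, -, hdet, -, -⟩ := hVYA Γ (1 / 10) B D hD le_rfl p.2 (A.tu R) p.1 hE
    obtain ⟨hYb, -⟩ := hB Γ (1 / 10) B D hD le_rfl p.2 (A.tu R) p.1 hE
    have hme : 2 * (Cb * (A.m * A.e3)) ≤ 1 / 20 := by
      have hm0 : (0 : ℝ) ≤ A.m := Nat.cast_nonneg _
      have h1 : (A.m : ℝ) * A.e3 ≤ A.m * A.z2 := mul_le_mul_of_nonneg_left hez hm0
      have h2 : 40 * Cb * (A.m * A.z2) ≤ C * (A.m * A.z2) :=
        mul_le_mul_of_nonneg_right (by linarith) (mul_nonneg hm0 hz2.le)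
      have h3 : 40 * Cb * (A.m * A.e3) ≤ 40 * Cb * (A.m * A.z2) := mul_le_mul_of_nonneg_left h1 (by linarith)
      nlinarith
    have hτ : A.tu R = (A.m * A.e3) * Real.log R := by
      unfold Prm.tu Prm.sg
      ring
    have hY : ‖(D.Y p.2 (A.tu R) p.1).det‖ ≤ 2 * (Cb ^ 2 * R ^ (1 / 20 : ℝ)) :=
      (VI9_det fun i j => (hYb i j).1).trans
        (mul_le_mul_of_nonneg_left (VI9_exp hR1 hτ (mul_nonneg (Nat.cast_nonneg _) he.le) hme) (by norm_num))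
    have hn : ‖D.a p.2 (A.tu R) p.1‖ ^ 2 * ‖(D.Y p.2 (A.tu R) p.1).det‖ = 1 := by
      rw [← norm_pow, ← norm_mul, hdet, norm_one]
    have hu : ‖ub D ch A R p q‖ ≤ 8 * R ^ 2 * ‖D.a p.2 (A.tu R) p.1‖ + R ^ (19 / 10 : ℝ) := by
      have h1 := norm_le_norm_add_norm_sub' (ub D ch A R p q)
        (∫ z : ℍ, conj (psi D ch A.z ζ2 R (A.tu R) p z) * Gp D.U ch A.z R q z)
      linarith
    exact (VI9_num hR1 hRb (norm_nonneg _) hu hn (norm_nonneg _) hY).trans hfin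
  · have hD' : OKD ⊥ (1 / 10) B D := by
      have hpot : Pot ⊥ (1 / 10) B D.U := by
        refine ⟨hD.pot.smooth, ⟨hD.pot.inv.1, fun γ z => ?_⟩, hD.pot.near, hD.pot.bd⟩
        have h1 : (γ : SL(2, ℝ)) = 1 := Subgroup.mem_bot.1 γ.2
        have h2 : (γ • z : ℍ) = (γ : SL(2, ℝ)) • z := rfl
        rw [h2, h1, one_smul]
      exact ⟨hpot, hD.fl0, hD.out, hD.dfl, hD.cfl, hD.Y0, hD.P0, hD.S0, hD.a0, hD.dY, hD.dP, hD.dS, hD.da, hD.cY, hD.cP,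
        hD.cS, hD.ca⟩
    obtain ⟨-, -, -, -, k5, -, -⟩ := hU1 R (1 / 10) ⊥ univ D (by linarith) (Or.inr ⟨rfl, rfl⟩) hD' le_rfl
    have h0 : ub D ch A R p q = 0 := by
      by_contra hne
      exact hq (k5 A.m p q hne).2
    rw [h0, norm_zero]
    have h1 : 0 ≤ R ^ (4 + C * A.z2) := Real.rpow_nonneg hR0.le _
    simpa using h1

end

end Pool.Agent.VQ
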