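import Mathlib
import Pool.Agent.helper74.VQ.SpecC

/-!
# VFM (project VQ, MP_07c750_an): the families of the project
-/

set_option autoImplicit false

open scoped MatrixGroups ContDiff Topology UpperHalfPlane ComplexConjugate ENNReal
open UpperHalfPlane MeasureTheory Filter Set

namespace Pool.Agent.VQ

open Pool.Agent.RS

noncomputable section

theorem VFM_mono {K : ℕ} {η η' m m' R ρ : ℝ} {f : ℂ → ℂ} (hR : 1 ≤ R) (hη : η ≤ η') (hm : 0 ≤ m) (hm' : m ≤ m')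
    (h : Pk K η m R ρ f) : Pk K η' m' R ρ f := by
  obtain ⟨A, h1, h2, h3, h4⟩ := h
  refine ⟨A, h1, fun v hv => (h2 v hv).trans ?_, fun k hk v => (h3 k hk v).trans ?_, h4⟩
  · exact Real.rpow_le_rpow_of_exponent_le hR (by linarith)
  · have h5 : R ^ (1 / 2 + η) ≤ R ^ (1 / 2 + η') := Real.rpow_le_rpow_of_exponent_le hR (by linarith)
    have h6 : 0 ≤ R ^ (1 / 2 + η) := Real.rpow_nonneg (by linarith) _
    exact mul_le_mul hm' (pow_le_pow_left₀ h6 h5 k) (pow_nonneg h6 k) (hm.trans hm')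

theorem VFM_win {R : ℝ} (hR : 65536 ≤ R) : 2 * R ^ (-(1 / 4) : ℝ) ≤ 1 / 8 := by
  have h1 : R ^ (-(1 / 4) : ℝ) ≤ (65536 : ℝ) ^ (-(1 / 4) : ℝ) :=
    Real.rpow_le_rpow_of_nonpos (by norm_num) hR (by norm_num)
  have h2 : (65536 : ℝ) ^ (-(1 / 4) : ℝ) = 1 / 16 := by
    have h3 : (65536 : ℝ) = (1 / 16 : ℝ) ^ (-4 : ℝ) := by
      rw [Real.rpow_neg (by norm_num)]
      norm_num
    rw [h3, ← Real.rpow_mul (by norm_num)]
    norm_num
  rw [h2] at h1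
  linarith

theorem VFM_mem {R : ℝ} (hR : 65536 ≤ R) {p : SL(2, ℝ) × ℝ} (hp : p ∈ GW 2 R) : |p.2| ≤ 1 / 8 := by
  have h1 : p.2 ∈ Wi 2 R := hp.2
  have h2 := VFM_win hR
  rw [abs_le]
  exact ⟨by linarith [h1.1], by linarith [h1.2]⟩

theorem VFM_rg {C C' e ζ ζ1 : ℝ} (h : Rg C e ζ ζ1) (hC : C' ≤ C) : Rg C' e ζ ζ1 := by
  obtain ⟨h1, h2, h3, h4, h5⟩ := h
  refine ⟨h1, h2, h3, (mul_le_mul_of_nonneg_right hC h1).trans h4, (mul_le_mul_of_nonneg_right hC ?_).trans h5⟩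
  linarith

theorem VFM_cont (F : ((SL(2, ℝ) × ℝ) × ℝ) × ℂ → ℂ) (t : ℝ)
    (h : ContinuousOn F {x | |x.1.1.2| ≤ 1 / 8}) :
    ContinuousOn (fun x : (SL(2, ℝ) × ℝ) × ℂ => F ((x.1, t), x.2)) {x | |x.1.2| ≤ 1 / 8} := by
  have hmap : Continuous (fun x : (SL(2, ℝ) × ℝ) × ℂ => ((x.1, t), x.2)) :=
    (continuous_fst.prodMk continuous_const).prodMk continuous_snd
  refine ContinuousOn.comp h hmap.continuousOn ?_
  intro x hx
  exact hx

theorem VFM_contG (D : Dyn) (ch : ℝ → ℝ) (ζ R : ℝ) (hchc : Continuous ch)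
    (hr : Continuous (fun x : ℝ × SL(2, ℝ) => rho D.U x.1 x.2)) :
    Continuous (fun x : (SL(2, ℝ) × ℝ) × ℂ => fG D ch ζ R x.1 x.2) := by
  have hm : Continuous (fun x : (SL(2, ℝ) × ℝ) × ℂ => ((x.1.2, x.1.1) : ℝ × SL(2, ℝ))) :=
    (continuous_snd.comp continuous_fst).prodMk (continuous_fst.comp continuous_fst)
  have hrho : Continuous (fun x : (SL(2, ℝ) × ℝ) × ℂ => rho D.U x.1.2 x.1.1) := by
    have h0 := Continuous.comp hr hm
    exact h0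
  have hb0 : Continuous (fun x : (SL(2, ℝ) × ℝ) × ℂ => b0 ch ζ R x.2) := by
    unfold b0
    have hn : Continuous (fun x : (SL(2, ℝ) × ℝ) × ℂ => ‖x.2‖ ^ 2) := (continuous_snd.norm).pow 2
    refine Continuous.mul ?_ ?_
    · refine Real.continuous_exp.comp ?_
      exact ((continuous_const.mul hn).div_const 2).neg
    · exact hchc.comp (continuous_const.mul hn)
  have hre : Continuous (fun x : (SL(2, ℝ) × ℝ) × ℂ => x.2.re) := Complex.continuous_re.comp continuous_snd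
  unfold fG
  refine Continuous.mul ?_ ?_
  · exact Complex.continuous_ofReal.comp (continuous_const.mul hb0)
  · refine Complex.continuous_exp.comp ?_
    exact (Complex.continuous_ofReal.comp ((continuous_const.mul hrho).mul hre)).mul continuous_const

theorem VFM_proof (hVPB : VPB_stmt) (hVPE : VPE_stmt) (hVPR : VPR_stmt) (hVUB : VUB_stmt) : VFM_stmt := by
  obtain ⟨C1, hC1, hB⟩ := hVPB
  obtain ⟨C2, hC2, hE⟩ := hVPE
  refine ⟨C1 + C2 + 8, by linarith, ?_⟩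
  intro ch K e ζ ζ1 B hch hRg
  have hRg1 : Rg C1 e ζ ζ1 := VFM_rg hRg (by linarith)
  have hRg2 : Rg C2 e ζ ζ1 := VFM_rg hRg (by linarith)
  obtain ⟨R1, hR1, hB1⟩ := hB ch K e ζ ζ1 hch hRg1
  obtain ⟨R2, hR2, hE1⟩ := hE ch K e ζ ζ1 B hch hRg2
  obtain ⟨-, hζ, hζζ, -, hCζ⟩ := hRg
  have hζ1 : 0 < ζ1 := by linarith
  have hζ8 : ζ1 ≤ 1 / 8 := by nlinarith
  refine ⟨R1 + R2 + 65536, by linarith, ?_⟩
  intro R δ t Γ D hR hD hδ ht
  have hRa : R1 ≤ R := by linarith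
  have hRb : R2 ≤ R := by linarith
  have hRc : 65536 ≤ R := by linarith
  have hRd : 1 ≤ R := by linarith
  obtain ⟨-, -, -, -, r5, r6, r7⟩ := hVPR ch ζ ζ1 R δ Γ B D hch hζ1 hζ8 (by linarith) hD hδ
  obtain ⟨-, -, -, u4, u5, -, -⟩ := hVUB Γ δ B D.U hD.pot hδ
  have e1 : C1 * ζ1 ≤ (C1 + C2 + 8) * ζ1 := mul_le_mul_of_nonneg_right (by linarith) hζ1.le
  have e2 : C2 * ζ1 ≤ (C1 + C2 + 8) * ζ1 := mul_le_mul_of_nonneg_right (by linarith) hζ1.le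
  have m1 : R ^ (3 / 2 + C1 * ζ1) ≤ R ^ (3 / 2 + (C1 + C2 + 8) * ζ1) :=
    Real.rpow_le_rpow_of_exponent_le hRd (by linarith)
  have m2 : R ^ (1 + C2 * ζ1) ≤ R ^ (1 + (C1 + C2 + 8) * ζ1) :=
    Real.rpow_le_rpow_of_exponent_le hRd (by linarith)
  have c5 : ContinuousOn (fun x : (SL(2, ℝ) × ℝ) × ℂ => pv D ch ζ ζ1 R t x.1 x.2) {x | |x.1.2| ≤ 1 / 8} :=
    VFM_cont (fun x => pv D ch ζ ζ1 R x.1.2 x.1.1 x.2) t r5
  have c6 : ContinuousOn (fun x : (SL(2, ℝ) × ℝ) × ℂ => Er D ch ζ ζ1 R t x.1 x.2) {x | |x.1.2| ≤ 1 / 8} :=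
    VFM_cont (fun x => Er D ch ζ ζ1 R x.1.2 x.1.1 x.2) t r6
  have cG : Continuous (fun x : (SL(2, ℝ) × ℝ) × ℂ => fG D ch ζ R x.1 x.2) :=
    VFM_contG D ch ζ R hch.smooth.continuous u4.2.2.2.1
  refine ⟨?_, ?_, ?_, ?_, ?_⟩
  · refine Fa.mk c5 ?_ ?_
    · intro γ p
      exact (r7 γ p t).2.1
    · intro p hp
      exact VFM_mono hRd e1 (Real.rpow_nonneg (by linarith) _) m1
          (hB1 R δ Γ B D p t hRa hD hδ (VFM_mem hRc hp) ht).2
  · refine Fa.mk c6 ?_ ?_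
    · intro γ p
      exact (r7 γ p t).2.2.1
    · intro p hp
      exact VFM_mono hRd e2 (Real.rpow_nonneg (by linarith) _) m2
          (hE1 R δ Γ D p t hRb hD hδ (VFM_mem hRc hp) ht)
  · refine Fa.mk cG.continuousOn ?_ ?_
    · intro γ p
      funext v
      have h1 : rho D.U p.2 ((γ : SL(2, ℝ)) * p.1) = rho D.U p.2 p.1 := (u5 γ p.1 p.2).2.2.2.2.1
      unfold fG
      dsimp only
      rw [h1]
    · intro p hp
      rw [hD.fl0]
      exact VFM_mono hRd e1 (Real.rpow_nonneg (by linarith) _) m1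
        (hB1 R δ Γ B D p t hRa hD hδ (VFM_mem hRc hp) ht).1
  · intro p z
    unfold pF psi
    rfl
  · intro p z
    unfold pF fG Gp
    rw [hD.fl0]

end

end Pool.Agent.VQ
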